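import Pool.Agent.Helper45_OD.Words
import Pool.Agent.Helper42_OD.Defs

/-!
# The Holroyd-Liggett four-colouring as a consistent family on the line
-/

set_option autoImplicit false

namespace Pool.Agent.OD.H45

open Finset

/-! ### Runs -/

theorem exists_out (L : Finset ℤ) (s : ℤ) : ∃ k : ℕ, s + k ∉ L := by
  by_contra h
  push Not at h
  have h1 : (Set.range fun k : ℕ => s + (k : ℤ)).Infinite := by
    refine Set.infinite_range_of_injective fun a b hab => ?_
    have : (a : ℤ) = b := add_left_cancel hab
    exact_mod_cast this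
  exact h1 (L.finite_toSet.subset (by rintro _ ⟨k, rfl⟩; exact h k))

theorem exists_out' (L : Finset ℤ) (s : ℤ) : ∃ k : ℕ, s - k ∉ L := by
  by_contra h
  push Not at h
  have h1 : (Set.range fun k : ℕ => s - (k : ℤ)).Infinite := by
    refine Set.infinite_range_of_injective fun a b hab => ?_
    have : (a : ℤ) = b := by
      have h2 : s - (a : ℤ) = s - b := hab
      linarith
    exact_mod_cast this
  exact h1 (L.finite_toSet.subset (by rintro _ ⟨k, rfl⟩; exact h k))

/-- length of the run starting at `s` -/
noncomputable def run (L : Finset ℤ) (s : ℤ) : ℕ := by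
  classical exact Nat.find (exists_out L s)

theorem run_not (L : Finset ℤ) (s : ℤ) : s + run L s ∉ L := by
  classical exact Nat.find_spec (exists_out L s)

theorem mem_of_lt_run {L : Finset ℤ} {s : ℤ} {i : ℕ} (h : i < run L s) : s + i ∈ L := by
  classical
  by_contra h1
  exact absurd (Nat.find_min' (exists_out L s) h1) (not_le.2 h)

theorem run_eq {L : Finset ℤ} {s : ℤ} {r : ℕ} (h1 : ∀ i < r, s + i ∈ L) (h2 : s + r ∉ L) :
    run L s = r := by
  rcases lt_trichotomy (run L s) r with h | h | h
  · exact absurd (h1 _ h) (run_not L s)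
  · exact h
  · exact absurd (mem_of_lt_run h) h2

theorem run_zero {L : Finset ℤ} {s : ℤ} (h : s ∉ L) : run L s = 0 :=
  run_eq (by simp) (by simpa using h)

theorem run_pos {L : Finset ℤ} {s : ℤ} (h : s ∈ L) : 1 ≤ run L s := by
  rcases Nat.eq_zero_or_pos (run L s) with h1 | h1
  · have h2 := run_not L s
    rw [h1] at h2
    exact absurd (by simpa using h) h2
  · exact h1

/-- the word of the run starting at `s` -/
noncomputable def wd (L : Finset ℤ) (x : ℤ → Fin 4) (s : ℤ) : List (Fin 4) :=
  (List.range (run L s)).map fun i : ℕ => x (s + (i : ℤ))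

theorem wd_nil {L : Finset ℤ} {x : ℤ → Fin 4} {s : ℤ} (h : s ∉ L) : wd L x s = [] := by
  unfold wd
  rw [run_zero h]
  rfl

theorem wd_congr {L L' : Finset ℤ} {x y : ℤ → Fin 4} {s s' : ℤ} (h : run L s = run L' s')
    (h2 : ∀ i < run L s, x (s + i) = y (s' + i)) : wd L x s = wd L' y s' := by
  unfold wd
  rw [← h]
  exact List.map_congr_left fun i hi => h2 i (List.mem_range.1 hi)

/-- starting points of the runs -/
def st (L : Finset ℤ) : Finset ℤ := L.filter fun s => s - 1 ∉ L

theorem mem_st {L : Finset ℤ} {s : ℤ} : s ∈ st L ↔ s ∈ L ∧ s - 1 ∉ L := Finset.mem_filter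

/-- the weights of the family -/
noncomputable def p0 (L : Finset ℤ) (x : ℤ → Fin 4) : ℝ := ∏ s ∈ st L, P (wd L x s)

theorem p0_nonneg (L : Finset ℤ) (x : ℤ → Fin 4) : 0 ≤ p0 L x :=
  Finset.prod_nonneg fun _ _ => P_nonneg _

theorem p0_empty (x : ℤ → Fin 4) : p0 ∅ x = 1 := rfl

theorem p0_dep {L : Finset ℤ} {x y : ℤ → Fin 4} (h : ∀ v ∈ L, x v = y v) : p0 L x = p0 L y := by
  refine Finset.prod_congr rfl fun s _ => ?_
  rw [wd_congr rfl fun i hi => h _ (mem_of_lt_run hi)]

theorem p0_sum (L : Finset ℤ) (x : ℤ → Fin 4) {v : ℤ} (hv : v ∉ L) :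
    ∑ b, p0 (insert v L) (Function.update x v b) = p0 L x := by
  classical
  obtain ⟨j, hj1, hj2⟩ : ∃ j : ℕ, (∀ i < j, v - 1 - (i : ℤ) ∈ L) ∧ v - 1 - (j : ℤ) ∉ L := by
    refine ⟨Nat.find (exists_out' L (v - 1)), fun i hi => ?_, Nat.find_spec (exists_out' L (v - 1))⟩
    by_contra h1
    exact absurd (Nat.find_min' (exists_out' L (v - 1)) h1) (not_le.2 hi)
  set s0 : ℤ := v - j with hs0
  set L' := insert v L with hL'
  set r1 := run L (v + 1) with hr1
  have hinL : ∀ i < j, s0 + (i : ℤ) ∈ L := by
    intro i hi
    have h1 := hj1 (j - 1 - i) (by omega)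
    have h2 : v - 1 - ((j - 1 - i : ℕ) : ℤ) = s0 + i := by
      rw [hs0]
      omega
    rwa [h2] at h1
  have hrun0 : run L s0 = j := by
    refine run_eq hinL ?_
    rw [hs0, sub_add_cancel]
    exact hv
  have hrun' : run L' s0 = j + (r1 + 1) := by
    refine run_eq ?_ ?_
    · intro i hi
      rcases lt_trichotomy i j with h | h | h
      · exact Finset.mem_insert_of_mem (hinL i h)
      · subst h
        rw [hs0, sub_add_cancel]
        exact Finset.mem_insert_self _ _
      · have h1 := mem_of_lt_run (L := L) (s := v + 1) (i := i - j - 1) (by omega)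
        have h2 : v + 1 + ((i - j - 1 : ℕ) : ℤ) = s0 + i := by
          rw [hs0]
          omega
        rw [h2] at h1
        exact Finset.mem_insert_of_mem h1
    · have h1 := run_not L (v + 1)
      have h2 : s0 + ((j + (r1 + 1) : ℕ) : ℤ) = v + 1 + run L (v + 1) := by
        rw [hs0, ← hr1]
        push_cast
        ring
      rw [h2, hL', Finset.mem_insert]
      rintro (h | h)
      · omega
      · exact h1 h
  have hword : ∀ b, wd L' (Function.update x v b) s0 = wd L x s0 ++ b :: wd L x (v + 1) := by
    intro b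
    unfold wd
    rw [hrun', hrun0, List.range_add, List.map_append, List.map_map, List.range_succ_eq_map,
      List.map_cons, List.map_map]
    congr 1
    · refine List.map_congr_left fun i hi => ?_
      have hi' := List.mem_range.1 hi
      rw [Function.update_of_ne]
      rw [hs0]
      omega
    · congr 1
      · simp only [Function.comp_apply, Nat.add_zero]
        rw [hs0, sub_add_cancel, Function.update_self]
      · refine List.map_congr_left fun i _ => ?_
        have h1 : s0 + ((j + Nat.succ i : ℕ) : ℤ) = v + 1 + i := by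
          rw [hs0]
          push_cast
          ring
        simp only [Function.comp_apply]
        rw [h1, Function.update_of_ne (by omega)]
  have hs0v : s0 ≤ v := by rw [hs0]; omega
  have hs0st : s0 ∈ st L' := by
    rw [mem_st]
    constructor
    · rcases Nat.eq_zero_or_pos j with h | h
      · rw [hs0, h]
        simp [hL']
      · have := hinL 0 h
        simp only [Nat.cast_zero, add_zero] at this
        exact Finset.mem_insert_of_mem this
    · have h1 : s0 - 1 = v - 1 - j := by rw [hs0]; ring
      rw [h1, hL', Finset.mem_insert]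
      rintro (h | h)
      · omega
      · exact hj2 h
  set T := (st L').erase s0 with hT
  have hTmem : ∀ s ∈ T, s ∈ L ∧ s - 1 ∉ L ∧ s ≠ v + 1 := by
    intro s hs
    obtain ⟨hne, hs1⟩ := Finset.mem_erase.1 hs
    obtain ⟨hs2, hs3⟩ := mem_st.1 hs1
    have hsv : s ≠ v := by
      intro h
      have h1 : v - 1 ∉ L := fun h2 => hs3 (by rw [h]; exact Finset.mem_insert_of_mem h2)
      rcases Nat.eq_zero_or_pos j with h2 | h2
      · exact hne (by rw [h, hs0, h2]; simp)
      · have h3 := hj1 0 h2
        simp only [Nat.cast_zero, sub_zero] at h3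
        exact h1 h3
    refine ⟨(Finset.mem_insert.1 hs2).resolve_left hsv,
      fun h => hs3 (Finset.mem_insert_of_mem h), ?_⟩
    intro h
    apply hs3
    rw [h, add_sub_cancel_right]
    exact Finset.mem_insert_self _ _
  have hTw : ∀ b, ∀ s ∈ T, wd L' (Function.update x v b) s = wd L x s := by
    intro b s hs
    obtain ⟨h1, h2, h3⟩ := hTmem s hs
    have hne := (Finset.mem_erase.1 hs).1
    have hsr : s + run L s ≠ v := by
      intro h
      apply hne
      have h4 : j = run L s := by
        rcases lt_trichotomy j (run L s) with h5 | h5 | h5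
        · exfalso
          have h6 := mem_of_lt_run (L := L) (s := s) (i := run L s - 1 - j) (by omega)
          have h7 : s + ((run L s - 1 - j : ℕ) : ℤ) = v - 1 - j := by omega
          rw [h7] at h6
          exact hj2 h6
        · exact h5
        · exfalso
          have h6 := hj1 (run L s) h5
          have h7 : v - 1 - (run L s : ℤ) = s - 1 := by omega
          rw [h7] at h6
          exact h2 h6
      rw [hs0, h4]
      omega
    have hrs : run L' s = run L s := by
      refine run_eq (fun i hi => Finset.mem_insert_of_mem (mem_of_lt_run hi)) ?_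
      rw [hL', Finset.mem_insert]
      rintro (h | h)
      · exact hsr h
      · exact run_not L s h
    refine wd_congr hrs fun i hi => ?_
    rw [hrs] at hi
    have h4 := mem_of_lt_run hi
    rw [Function.update_of_ne]
    intro h5
    exact hv (h5 ▸ h4)
  have hp' : ∀ b, p0 L' (Function.update x v b) =
      P (wd L x s0 ++ b :: wd L x (v + 1)) * ∏ s ∈ T, P (wd L x s) := by
    intro b
    unfold p0
    rw [← Finset.mul_prod_erase _ _ hs0st, hword]
    congr 1
    exact Finset.prod_congr rfl fun s hs => by rw [hTw b s hs]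
  have hp : p0 L x = P (wd L x s0) * (P (wd L x (v + 1)) * ∏ s ∈ T, P (wd L x s)) := by
    have h1 : s0 ∉ insert (v + 1) T := by
      rw [Finset.mem_insert]
      rintro (h | h)
      · omega
      · exact (Finset.mem_erase.1 h).1 rfl
    have h2 : v + 1 ∉ T := fun h => (hTmem _ h).2.2 rfl
    have h0 : p0 L x = ∏ s ∈ insert s0 (insert (v + 1) T), P (wd L x s) := ?_
    · rw [h0, Finset.prod_insert h1, Finset.prod_insert h2]
    unfold p0
    refine Finset.prod_subset ?_ ?_
    · intro s hs
      obtain ⟨hs1, hs2⟩ := mem_st.1 hs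
      rw [Finset.mem_insert, Finset.mem_insert]
      by_cases h3 : s = s0
      · exact Or.inl h3
      · by_cases h4 : s = v + 1
        · exact Or.inr (Or.inl h4)
        · refine Or.inr (Or.inr (Finset.mem_erase.2 ⟨h3, mem_st.2
            ⟨Finset.mem_insert_of_mem hs1, ?_⟩⟩))
          rw [hL', Finset.mem_insert]
          rintro (h5 | h5)
          · omega
          · exact hs2 h5
    · intro s hs hns
      have h3 : s ∉ L := by
        intro h4
        apply hns
        rw [mem_st]
        refine ⟨h4, ?_⟩
        rcases Finset.mem_insert.1 hs with h5 | h5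
        · rw [h5]
          have h6 : s0 - 1 = v - 1 - j := by rw [hs0]; ring
          rw [h6]
          exact hj2
        · rcases Finset.mem_insert.1 h5 with h6 | h6
          · rw [h6, add_sub_cancel_right]
            exact hv
          · exact (hTmem s h6).2.1
      rw [wd_nil h3, P_nil]
  rw [Finset.sum_congr rfl fun b _ => hp' b, ← Finset.sum_mul, P_sum, hp, mul_assoc]

theorem p0_proper {L : Finset ℤ} {x : ℤ → Fin 4} {u : ℤ} (h1 : u ∈ L) (h2 : u + 1 ∈ L)
    (hx : x u = x (u + 1)) : p0 L x = 0 := by
  classical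
  obtain ⟨j, hj1, hj2⟩ : ∃ j : ℕ, (∀ i < j, u - 1 - (i : ℤ) ∈ L) ∧ u - 1 - (j : ℤ) ∉ L := by
    refine ⟨Nat.find (exists_out' L (u - 1)), fun i hi => ?_, Nat.find_spec (exists_out' L (u - 1))⟩
    by_contra h1
    exact absurd (Nat.find_min' (exists_out' L (u - 1)) h1) (not_le.2 hi)
  set s0 : ℤ := u - j with hs0
  have hinL : ∀ i ≤ j, s0 + (i : ℤ) ∈ L := by
    intro i hi
    rcases hi.eq_or_lt with h | h
    · rw [h, hs0, sub_add_cancel]
      exact h1
    · have h3 := hj1 (j - 1 - i) (by omega)
      have h4 : u - 1 - ((j - 1 - i : ℕ) : ℤ) = s0 + i := by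
        rw [hs0]
        omega
      rwa [h4] at h3
  have hs0st : s0 ∈ st L := by
    rw [mem_st]
    constructor
    · simpa using hinL 0 (Nat.zero_le _)
    · have h3 : s0 - 1 = u - 1 - j := by rw [hs0]; ring
      rw [h3]
      exact hj2
  have hrun : j + 1 < run L s0 := by
    by_contra h3
    push Not at h3
    have h4 := run_not L s0
    rcases h3.eq_or_lt with h5 | h5
    · rw [h5] at h4
      apply h4
      have h6 : s0 + ((j + 1 : ℕ) : ℤ) = u + 1 := by
        rw [hs0]
        push_cast
        ring
      rw [h6]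
      exact h2
    · exact h4 (hinL _ (by omega))
  unfold p0
  refine Finset.prod_eq_zero hs0st (P_of_not_ok fun h => ?_)
  have h3 := (List.isChain_iff_getElem.1 h) j (by
    unfold wd
    rw [List.length_map, List.length_range]
    exact hrun)
  apply h3
  unfold wd
  rw [List.getElem_map, List.getElem_map, List.getElem_range, List.getElem_range]
  have h4 : s0 + ((j : ℕ) : ℤ) = u := by rw [hs0]; ring
  have h5 : s0 + ((j + 1 : ℕ) : ℤ) = u + 1 := by
    rw [hs0]
    push_cast
    ring
  rw [h4, h5]
  exact hx

theorem p0_shift (L : Finset ℤ) (x : ℤ → Fin 4) (a : ℤ) :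
    p0 (L.image fun v => v + a) x = p0 L fun v => x (v + a) := by
  classical
  have hm : ∀ v : ℤ, v + a ∈ L.image (fun v => v + a) ↔ v ∈ L := by
    intro v
    rw [Finset.mem_image]
    constructor
    · rintro ⟨w, hw, h⟩
      have : w = v := by linarith
      rwa [← this]
    · intro h
      exact ⟨v, h, rfl⟩
  have hst : st (L.image fun v => v + a) = (st L).image fun v => v + a := by
    ext s
    have h1 : s = (s - a) + a := by ring
    have h2 : s - 1 = (s - 1 - a) + a := by ring
    rw [mem_st]
    constructor
    · rintro ⟨h3, h4⟩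
      refine Finset.mem_image.2 ⟨s - a, ?_, by ring⟩
      rw [mem_st]
      refine ⟨(hm _).1 (by rwa [← h1]), fun h => h4 ?_⟩
      have h5 := (hm _).2 h
      rwa [show s - a - 1 + a = s - 1 by ring] at h5
    · intro hh
      obtain ⟨w, hw, h⟩ := Finset.mem_image.1 hh
      obtain ⟨h3, h4⟩ := mem_st.1 hw
      rw [← h]
      refine ⟨(hm _).2 h3, fun h5 => h4 ?_⟩
      rw [show w + a - 1 = (w - 1) + a by ring] at h5
      exact (hm _).1 h5
  unfold p0
  rw [hst, Finset.prod_image (fun u _ w _ h => by
    have : u + a = w + a := h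
    linarith)]
  refine Finset.prod_congr rfl fun s _ => ?_
  have hr : run (L.image fun v => v + a) (s + a) = run L s := by
    refine run_eq ?_ ?_
    · intro i hi
      rw [show s + a + (i : ℤ) = (s + i) + a by ring]
      exact (hm _).2 (mem_of_lt_run hi)
    · rw [show s + a + ((run L s : ℕ) : ℤ) = (s + run L s) + a by ring]
      exact fun h => run_not L s ((hm _).1 h)
  rw [wd_congr hr (y := fun v => x (v + a)) fun i _ => by
    change x (s + a + i) = x (s + i + a)
    rw [show s + a + (i : ℤ) = (s + i) + a by ring]]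

theorem p0_mul {A B : Finset ℤ} (x : ℤ → Fin 4)
    (h : ∀ u ∈ A, ∀ v ∈ B, u ≠ v ∧ u ≠ v + 1 ∧ u + 1 ≠ v) :
    p0 (A ∪ B) x = p0 A x * p0 B x := by
  classical
  have hst : st (A ∪ B) = st A ∪ st B := by
    ext s
    simp only [mem_st, Finset.mem_union]
    constructor
    · rintro ⟨h1 | h1, h2⟩
      · exact Or.inl ⟨h1, fun h3 => h2 (Or.inl h3)⟩
      · exact Or.inr ⟨h1, fun h3 => h2 (Or.inr h3)⟩
    · rintro (⟨h1, h2⟩ | ⟨h1, h2⟩)
      · refine ⟨Or.inl h1, ?_⟩
        rintro (h3 | h3)
        · exact h2 h3
        · exact (h s h1 _ h3).2.1 (by ring)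
      · refine ⟨Or.inr h1, ?_⟩
        rintro (h3 | h3)
        · exact (h _ h3 s h1).2.2 (by ring)
        · exact h2 h3
  have hdis : Disjoint (st A) (st B) := by
    rw [Finset.disjoint_left]
    intro s h1 h2
    exact (h s (mem_st.1 h1).1 s (mem_st.1 h2).1).1 rfl
  unfold p0
  rw [hst, Finset.prod_union hdis]
  congr 1
  · refine Finset.prod_congr rfl fun s hs => ?_
    have hsA := (mem_st.1 hs).1
    have hr : run (A ∪ B) s = run A s := by
      refine run_eq (fun i hi => Finset.mem_union_left _ (mem_of_lt_run hi)) ?_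
      rw [Finset.mem_union]
      rintro (h1 | h1)
      · exact run_not A s h1
      · have h2 := run_pos hsA
        have h3 := mem_of_lt_run (L := A) (s := s) (i := run A s - 1) (by omega)
        refine (h _ h3 _ h1).2.2 ?_
        omega
    rw [wd_congr hr fun i _ => rfl]
  · refine Finset.prod_congr rfl fun s hs => ?_
    have hsB := (mem_st.1 hs).1
    have hr : run (A ∪ B) s = run B s := by
      refine run_eq (fun i hi => Finset.mem_union_right _ (mem_of_lt_run hi)) ?_
      rw [Finset.mem_union]
      rintro (h1 | h1)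
      · have h2 := run_pos hsB
        have h3 := mem_of_lt_run (L := B) (s := s) (i := run B s - 1) (by omega)
        refine (h _ h1 _ h3).2.1 ?_
        omega
      · exact run_not B s h1
    rw [wd_congr hr fun i _ => rfl]

/-! ### The family on the line -/

/-- Holroyd-Liggett family in the setting of the squad -/
noncomputable def pHL (L : Finset (Fin 1 → ℤ)) (x : (Fin 1 → ℤ) → Fin 4) : ℝ :=
  p0 (L.image fun v => v 0) fun z => x fun _ => z

theorem const_eq (v : Fin 1 → ℤ) : (fun _ : Fin 1 => v 0) = v := by
  funext i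
  rw [Subsingleton.elim i 0]

theorem ladj_iff {u v : Fin 1 → ℤ} : LAdj u v ↔ u 0 = v 0 + 1 ∨ u 0 + 1 = v 0 := by
  unfold LAdj
  rw [Fin.sum_univ_one]
  constructor
  · intro h
    rcases abs_eq (by norm_num : (0 : ℤ) ≤ 1) |>.1 h with h1 | h1
    · left; omega
    · right; omega
  · rintro (h | h)
    · rw [h]; simp
    · rw [← h]; simp

theorem fam : IsFam 1 4 pHL where
  nonneg L x := p0_nonneg _ _
  empty x := by
    unfold pHL
    rw [Finset.image_empty]
    exact p0_empty _
  dep L x y h := by
    refine p0_dep fun z hz => ?_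
    obtain ⟨v, hv, rfl⟩ := Finset.mem_image.1 hz
    have := h v hv
    rwa [← const_eq v] at this
  sum L x v hv := by
    have h1 : v 0 ∉ L.image fun v => v 0 := by
      intro h
      obtain ⟨w, hw, h2⟩ := Finset.mem_image.1 h
      apply hv
      have h3 : w = v := by
        rw [← const_eq w, ← const_eq v, h2]
      rwa [← h3]
    unfold pHL
    rw [← p0_sum _ _ h1]
    refine Finset.sum_congr rfl fun b _ => ?_
    rw [Finset.image_insert]
    congr 1
    funext z
    by_cases hz : z = v 0
    · subst hz
      rw [Function.update_self, const_eq, Function.update_self]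
    · rw [Function.update_of_ne hz, Function.update_of_ne]
      intro h
      exact hz (congrFun h 0)
  proper L x u v hu hv huv hx := by
    have h1 := Finset.mem_image_of_mem (fun v : Fin 1 → ℤ => v 0) hu
    have h2 := Finset.mem_image_of_mem (fun v : Fin 1 → ℤ => v 0) hv
    have hx' : (fun z => x fun _ => z) (u 0) = (fun z => x fun _ => z) (v 0) := by
      change x (fun _ => u 0) = x fun _ => v 0
      rw [const_eq, const_eq, hx]
    unfold pHL
    rcases ladj_iff.1 huv with h | h
    · refine p0_proper (u := v 0) h2 ?_ ?_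
      · rw [← h]
        exact h1
      · rw [← h]
        exact hx'.symm
    · refine p0_proper (u := u 0) h1 ?_ ?_
      · rw [h]
        exact h2
      · rw [h]
        exact hx'
  shift L x a := by
    unfold pHL
    have h1 : (L.image fun v => v + a).image (fun v : Fin 1 → ℤ => v 0) =
        (L.image fun v : Fin 1 → ℤ => v 0).image fun z => z + a 0 := by
      rw [Finset.image_image, Finset.image_image]
      rfl
    rw [h1, p0_shift]
    congr 1
    funext z
    congr 1
    funext i
    rw [Subsingleton.elim i 0]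
    rfl
  mul A B x h := by
    unfold pHL
    rw [Finset.image_union]
    refine p0_mul _ ?_
    intro z hz z' hz'
    obtain ⟨u, hu, rfl⟩ := Finset.mem_image.1 hz
    obtain ⟨v, hv, rfl⟩ := Finset.mem_image.1 hz'
    obtain ⟨h1, h2⟩ := h u hu v hv
    rw [ladj_iff] at h2
    push Not at h2
    refine ⟨fun h3 => h1 ?_, h2.1, h2.2⟩
    rw [← const_eq u, ← const_eq v, h3]

end Pool.Agent.OD.H45
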