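import Mathlib

/-!
# The Holroyd-Liggett four-colouring: word weights

`B x` is the number of ways to build the proper word `x` over four letters by successive insertions
such that all intermediate words are proper.  The identity of Holroyd and Liggett:
`∑ a, B (x ++ a :: y) = 2 * choose (m + n + 2) (m + 1) * B x * B y`.
-/

set_option autoImplicit false

namespace Pool.Agent.OD.H45

open Finset

/-- proper words -/
def ok (x : List (Fin 4)) : Prop := x.IsChain (· ≠ ·)

instance (x : List (Fin 4)) : Decidable (ok x) := by unfold ok; infer_instance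

/-- sum over all deletions of one letter -/
def D (f : List (Fin 4) → ℝ) : List (Fin 4) → ℝ
  | [] => 0
  | a :: l => f l + D (fun z => f (a :: z)) l

theorem D_append (f : List (Fin 4) → ℝ) (x y : List (Fin 4)) :
    D f (x ++ y) = D (fun z => f (z ++ y)) x + D (fun z => f (x ++ z)) y := by
  induction x generalizing f with
  | nil => simp [D]
  | cons a x ih =>
    simp only [List.cons_append, D]
    rw [ih (fun z => f (a :: z))]
    ring

theorem D_congr {f g : List (Fin 4) → ℝ} {x : List (Fin 4)}
    (h : ∀ z : List (Fin 4), z.length + 1 = x.length → f z = g z) : D f x = D g x := by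
  induction x generalizing f g with
  | nil => rfl
  | cons a x ih =>
    simp only [D]
    rw [h x (by simp), ih (f := fun z => f (a :: z)) (g := fun z => g (a :: z))]
    intro z hz
    exact h _ (by simp [hz])

theorem D_mul (c : ℝ) (f : List (Fin 4) → ℝ) (x : List (Fin 4)) :
    D (fun z => c * f z) x = c * D f x := by
  induction x generalizing f with
  | nil => simp [D]
  | cons a x ih =>
    simp only [D]
    rw [ih (fun z => f (a :: z))]
    ring

theorem D_sum (f : Fin 4 → List (Fin 4) → ℝ) (x : List (Fin 4)) :
    ∑ a, D (f a) x = D (fun z => ∑ a, f a z) x := by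
  induction x generalizing f with
  | nil => simp [D]
  | cons b x ih =>
    simp only [D]
    rw [Finset.sum_add_distrib, ih (fun a z => f a (b :: z))]

theorem D_nonneg {f : List (Fin 4) → ℝ} (h : ∀ z, 0 ≤ f z) (x : List (Fin 4)) : 0 ≤ D f x := by
  induction x generalizing f with
  | nil => exact le_rfl
  | cons a x ih =>
    simp only [D]
    exact add_nonneg (h _) (ih fun z => h _)

/-- number of ways to build a word of length `n` -/
noncomputable def Bn : ℕ → List (Fin 4) → ℝ
  | 0, _ => 1
  | n + 1, x => if ok x then D (Bn n) x else 0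

/-- number of ways to build a word -/
noncomputable def B (x : List (Fin 4)) : ℝ := Bn x.length x

theorem B_nil : B [] = 1 := rfl

theorem B_of_not_ok {x : List (Fin 4)} (h : ¬ ok x) : B x = 0 := by
  rcases x with _ | ⟨a, x⟩
  · exact absurd List.isChain_nil h
  · simp [B, Bn, h]

theorem B_of_ok {x : List (Fin 4)} (h : ok x) (hx : x ≠ []) : B x = D B x := by
  rcases x with _ | ⟨a, x⟩
  · exact absurd rfl hx
  · have h1 : B (a :: x) = D (Bn x.length) (a :: x) := by
      change (if ok (a :: x) then D (Bn x.length) (a :: x) else 0) = _
      rw [if_pos h]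
    rw [h1]
    refine D_congr fun z hz => ?_
    have h2 : x.length = z.length := by
      simp only [List.length_cons] at hz
      omega
    rw [h2]
    rfl

theorem Bn_nonneg (n : ℕ) (x : List (Fin 4)) : 0 ≤ Bn n x := by
  induction n generalizing x with
  | zero => exact zero_le_one
  | succ n ih =>
    unfold Bn
    split_ifs
    · exact D_nonneg ih x
    · exact le_rfl

theorem B_nonneg (x : List (Fin 4)) : 0 ≤ B x := Bn_nonneg _ _

/-! ### Proper words -/

theorem ok_left {x y : List (Fin 4)} (h : ok (x ++ y)) : ok x := List.IsChain.left_of_append h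

theorem ok_right {x y : List (Fin 4)} (h : ok (x ++ y)) : ok y := List.IsChain.right_of_append h

theorem ok_mid {x y : List (Fin 4)} {l a : Fin 4} :
    ok ((x ++ [l]) ++ a :: y) ↔ ok (x ++ [l]) ∧ l ≠ a ∧ ok (a :: y) := by
  unfold ok
  rw [List.append_assoc]
  exact List.isChain_append_cons_cons

theorem ok_mid' {x y : List (Fin 4)} {a h : Fin 4} :
    ok (x ++ a :: h :: y) ↔ ok (x ++ [a]) ∧ a ≠ h ∧ ok (h :: y) := by
  unfold ok
  exact List.isChain_append_cons_cons

theorem ok_cons {y : List (Fin 4)} {a h : Fin 4} : ok (a :: h :: y) ↔ a ≠ h ∧ ok (h :: y) := by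
  unfold ok
  exact List.isChain_cons_cons

theorem ok_single (a : Fin 4) : ok [a] := List.isChain_singleton a

/-! ### The identity -/

/-- the sum over the middle letter -/
noncomputable def S (x y : List (Fin 4)) : ℝ := ∑ a, B (x ++ a :: y)

/-- left part -/
theorem left_part {x y : List (Fin 4)} (hx : ok x) (hx0 : x ≠ []) :
    ∑ a, (if ok (x ++ a :: y) then D (fun z => B (z ++ a :: y)) x else 0) + B (x ++ y) =
      D (fun z => S z y) x := by
  obtain ⟨x', l, rfl⟩ : ∃ x' l, x = x' ++ [l] := by
    rcases List.eq_nil_or_concat x with h | ⟨x', l, h⟩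
    · exact absurd h hx0
    · exact ⟨x', l, by rw [h, List.concat_eq_append]⟩
  have hD : ∀ f : List (Fin 4) → ℝ, D f (x' ++ [l]) = D (fun z => f (z ++ [l])) x' + f x' := by
    intro f
    rw [D_append]
    simp [D]
  have h1 : ∀ a, (if ok ((x' ++ [l]) ++ a :: y) then D (fun z => B (z ++ a :: y)) (x' ++ [l])
      else 0) = D (fun z => B ((z ++ [l]) ++ a :: y)) x' +
        (if ok ((x' ++ [l]) ++ a :: y) then B (x' ++ a :: y) else 0) := by
    intro a
    split_ifs with h
    · rw [hD]
    · rw [add_zero]
      have h2 : D (fun z => B ((z ++ [l]) ++ a :: y)) x' = D (fun z => 0 * B z) x' := by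
        refine D_congr fun z _ => ?_
        rw [zero_mul]
        refine B_of_not_ok fun h3 => h ?_
        rw [ok_mid] at h3 ⊢
        exact ⟨hx, h3.2.1, h3.2.2⟩
      rw [h2, D_mul, zero_mul]
  have h2 : ∑ a, (if ok ((x' ++ [l]) ++ a :: y) then B (x' ++ a :: y) else 0) +
      B ((x' ++ [l]) ++ y) = S x' y := by
    unfold S
    rw [← Finset.add_sum_erase Finset.univ _ (Finset.mem_univ l),
      ← Finset.add_sum_erase Finset.univ (fun a => B (x' ++ a :: y)) (Finset.mem_univ l)]
    have h3 : ¬ ok ((x' ++ [l]) ++ l :: y) := by
      rw [ok_mid]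
      exact fun h => h.2.1 rfl
    rw [if_neg h3, zero_add]
    have h4 : (x' ++ [l]) ++ y = x' ++ l :: y := by simp
    rw [h4, add_comm]
    congr 1
    refine Finset.sum_congr rfl fun a ha => ?_
    split_ifs with h
    · rfl
    · symm
      refine B_of_not_ok fun h5 => h ?_
      rw [ok_mid]
      exact ⟨hx, (Finset.ne_of_mem_erase ha).symm, ok_right h5⟩
  rw [Finset.sum_congr rfl fun a _ => h1 a, Finset.sum_add_distrib, add_assoc, h2, D_sum, hD]
  rfl

/-- right part -/
theorem right_part {x y : List (Fin 4)} (hy : ok y) (hy0 : y ≠ []) :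
    ∑ a, (if ok (x ++ a :: y) then D (fun z => B (x ++ a :: z)) y else 0) + B (x ++ y) =
      D (fun z => S x z) y := by
  obtain ⟨h, y', rfl⟩ : ∃ h y', y = h :: y' := List.exists_cons_of_ne_nil hy0
  have h1 : ∀ a, (if ok (x ++ a :: h :: y') then D (fun z => B (x ++ a :: z)) (h :: y')
      else 0) = D (fun z => B (x ++ a :: h :: z)) y' +
        (if ok (x ++ a :: h :: y') then B (x ++ a :: y') else 0) := by
    intro a
    split_ifs with hk
    · simp only [D]
      ring
    · rw [add_zero]
      have h2 : D (fun z => B (x ++ a :: h :: z)) y' = D (fun z => 0 * B z) y' := by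
        refine D_congr fun z _ => ?_
        rw [zero_mul]
        refine B_of_not_ok fun h3 => hk ?_
        rw [ok_mid'] at h3 ⊢
        exact ⟨h3.1, h3.2.1, hy⟩
      rw [h2, D_mul, zero_mul]
  have h2 : ∑ a, (if ok (x ++ a :: h :: y') then B (x ++ a :: y') else 0) +
      B (x ++ h :: y') = S x y' := by
    unfold S
    rw [← Finset.add_sum_erase Finset.univ _ (Finset.mem_univ h),
      ← Finset.add_sum_erase Finset.univ (fun a => B (x ++ a :: y')) (Finset.mem_univ h)]
    have h3 : ¬ ok (x ++ h :: h :: y') := by
      rw [ok_mid']
      exact fun h => h.2.1 rfl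
    rw [if_neg h3, zero_add, add_comm]
    congr 1
    refine Finset.sum_congr rfl fun a ha => ?_
    split_ifs with hk
    · rfl
    · symm
      refine B_of_not_ok fun h5 => hk ?_
      rw [ok_mid']
      refine ⟨?_, Finset.ne_of_mem_erase ha, hy⟩
      have h6 : x ++ a :: y' = (x ++ [a]) ++ y' := by simp
      rw [h6] at h5
      exact ok_left h5
  rw [Finset.sum_congr rfl fun a _ => h1 a, Finset.sum_add_distrib, add_assoc, h2, D_sum]
  simp only [D]
  rw [add_comm]
  rfl

theorem card_two : ∀ l h : Fin 4, l ≠ h →
    (Finset.univ.filter fun a : Fin 4 => l ≠ a ∧ a ≠ h).card = 2 := by decide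

theorem card_three : ∀ l : Fin 4, (Finset.univ.filter fun a : Fin 4 => l ≠ a).card = 3 := by
  decide

theorem card_three' : ∀ l : Fin 4, (Finset.univ.filter fun a : Fin 4 => a ≠ l).card = 3 := by
  decide

/-- middle part -/
theorem mid_part {x y : List (Fin 4)} (hx : ok x) (hy : ok y) :
    ∑ a, (if ok (x ++ a :: y) then B (x ++ y) else 0) =
      (2 + (if x = [] then 1 else 0) + (if y = [] then 1 else 0)) * B (x ++ y) := by
  rcases List.eq_nil_or_concat x with rfl | ⟨x', l, hxl⟩
  · rcases y with _ | ⟨h, y'⟩
    · have h1 : ∀ a : Fin 4, ok ([] ++ a :: []) := fun a => ok_single a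
      simp only [h1, if_true]
      rw [Finset.sum_const]
      norm_num
    · have h1 : ∀ a : Fin 4, ok ([] ++ a :: h :: y') ↔ a ≠ h := by
        intro a
        rw [List.nil_append, ok_cons]
        exact ⟨fun h => h.1, fun h => ⟨h, hy⟩⟩
      simp only [h1]
      rw [← Finset.sum_filter, Finset.sum_const, card_three', if_pos trivial,
        if_neg (List.cons_ne_nil _ _)]
      norm_num
  · rw [List.concat_eq_append] at hxl
    subst hxl
    rcases y with _ | ⟨h, y'⟩
    · have h1 : ∀ a : Fin 4, ok ((x' ++ [l]) ++ a :: []) ↔ l ≠ a := by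
        intro a
        rw [ok_mid]
        exact ⟨fun h => h.2.1, fun h => ⟨hx, h, ok_single a⟩⟩
      simp only [h1]
      rw [← Finset.sum_filter, Finset.sum_const, card_three]
      simp
      norm_num
    · have h1 : ∀ a : Fin 4, ok ((x' ++ [l]) ++ a :: h :: y') ↔ l ≠ a ∧ a ≠ h := by
        intro a
        rw [ok_mid, ok_cons]
        exact ⟨fun h => ⟨h.2.1, h.2.2.1⟩, fun h => ⟨hx, h.1, h.2, hy⟩⟩
      simp only [h1]
      rw [← Finset.sum_filter, Finset.sum_const]
      by_cases hlh : l = h
      · have h2 : B ((x' ++ [l]) ++ h :: y') = 0 := by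
          refine B_of_not_ok fun h3 => ?_
          rw [ok_mid] at h3
          exact h3.2.1 hlh
        rw [h2]
        simp
      · rw [card_two l h hlh]
        simp

/-- the recursion for the sum over the middle letter -/
theorem S_rec {x y : List (Fin 4)} (hx : ok x) (hy : ok y) :
    S x y = D (fun z => S z y) x + D (fun z => S x z) y +
      (2 * (if x = [] then 1 else 0) + 2 * (if y = [] then 1 else 0)) * B (x ++ y) := by
  have h1 : S x y = ∑ a, (if ok (x ++ a :: y) then D (fun z => B (z ++ a :: y)) x else 0) +
      ∑ a, (if ok (x ++ a :: y) then D (fun z => B (x ++ a :: z)) y else 0) +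
      ∑ a, (if ok (x ++ a :: y) then B (x ++ y) else 0) := by
    unfold S
    rw [← Finset.sum_add_distrib, ← Finset.sum_add_distrib]
    refine Finset.sum_congr rfl fun a _ => ?_
    split_ifs with h
    · rw [B_of_ok h (by simp), D_append]
      simp only [D]
      ring
    · rw [B_of_not_ok h]
      ring
  rw [h1, mid_part hx hy]
  by_cases hx0 : x = []
  · subst hx0
    by_cases hy0 : y = []
    · subst hy0
      simp [D]
      norm_num
    · have h2 := right_part (x := []) hy hy0
      simp only [D, List.nil_append, ite_self, Finset.sum_const_zero, if_true, if_neg hy0] at h2 ⊢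
      linarith
  · have h3 := left_part (y := y) hx hx0
    by_cases hy0 : y = []
    · subst hy0
      simp only [D, ite_self, Finset.sum_const_zero, if_true, if_neg hx0] at h3 ⊢
      linarith
    · have h2 := right_part (x := x) hy hy0
      simp only [if_neg hx0, if_neg hy0] at h3 h2 ⊢
      linarith

/-- the identity of Holroyd and Liggett -/
theorem S_eq (x y : List (Fin 4)) :
    S x y = 2 * (x.length + y.length + 2).choose (x.length + 1) * (B x * B y) := by
  obtain ⟨N, hN⟩ : ∃ N, N = x.length + y.length := ⟨_, rfl⟩
  induction N using Nat.strong_induction_on generalizing x y with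
  | _ N ih =>
    by_cases hx : ok x
    swap
    · rw [B_of_not_ok hx]
      have h1 : S x y = 0 := by
        unfold S
        exact Finset.sum_eq_zero fun a _ => B_of_not_ok fun h => hx (ok_left h)
      rw [h1]
      ring
    by_cases hy : ok y
    swap
    · rw [B_of_not_ok hy]
      have h1 : S x y = 0 := by
        unfold S
        refine Finset.sum_eq_zero fun a _ => B_of_not_ok fun h => hy ?_
        have h6 : x ++ a :: y = (x ++ [a]) ++ y := by simp
        rw [h6] at h
        exact ok_right h
      rw [h1]
      ring
    rw [S_rec hx hy]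
    have hL : x ≠ [] → D (fun z => S z y) x =
        2 * (x.length + y.length + 1).choose x.length * (B x * B y) := by
      intro hx0
      have h1 : D (fun z => S z y) x =
          D (fun z => (2 * (x.length + y.length + 1).choose x.length * B y) * B z) x := by
        refine D_congr fun z hz => ?_
        rw [ih (z.length + y.length) (by omega) z y rfl, ← hz,
          show z.length + 1 + y.length + 1 = z.length + y.length + 2 by ring]
        ring
      rw [h1, D_mul, B_of_ok hx hx0]
      ring
    have hR : y ≠ [] → D (fun z => S x z) y =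
        2 * (x.length + y.length + 1).choose (x.length + 1) * (B x * B y) := by
      intro hy0
      have h1 : D (fun z => S x z) y =
          D (fun z => (2 * (x.length + y.length + 1).choose (x.length + 1) * B x) * B z) y := by
        refine D_congr fun z hz => ?_
        rw [ih (x.length + z.length) (by omega) x z rfl, ← hz,
          show x.length + (z.length + 1) + 1 = x.length + z.length + 2 by ring]
        ring
      rw [h1, D_mul, B_of_ok hy hy0]
      ring
    by_cases hx0 : x = []
    · subst hx0
      by_cases hy0 : y = []
      · subst hy0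
        simp [D, B_nil]
        norm_num
      · rw [hR hy0]
        simp only [D, if_true, if_neg hy0, List.nil_append, B_nil, List.length_nil,
          zero_add, Nat.choose_one_right]
        push_cast
        ring
    · by_cases hy0 : y = []
      · subst hy0
        rw [hL hx0]
        simp only [D, if_true, if_neg hx0, List.append_nil, B_nil, List.length_nil,
          add_zero]
        rw [Nat.choose_succ_self_right, Nat.choose_succ_self_right]
        push_cast
        ring
      · rw [hL hx0, hR hy0]
        simp only [if_neg hx0, if_neg hy0]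
        have h1 : (x.length + y.length + 2).choose (x.length + 1) =
            (x.length + y.length + 1).choose x.length +
              (x.length + y.length + 1).choose (x.length + 1) := Nat.choose_succ_succ _ _
        rw [h1]
        push_cast
        ring

/-- probability of a word -/
noncomputable def P (x : List (Fin 4)) : ℝ := B x / (2 ^ x.length * ((x.length + 1).factorial : ℝ))

theorem P_nil : P [] = 1 := by simp [P, B_nil]

theorem P_nonneg (x : List (Fin 4)) : 0 ≤ P x := div_nonneg (B_nonneg x) (by positivity)

theorem P_of_not_ok {x : List (Fin 4)} (h : ¬ ok x) : P x = 0 := by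
  rw [P, B_of_not_ok h, zero_div]

theorem P_sum (x y : List (Fin 4)) : ∑ a, P (x ++ a :: y) = P x * P y := by
  have h1 : ∑ a, P (x ++ a :: y) =
      S x y / (2 ^ (x.length + y.length + 1) * ((x.length + y.length + 2).factorial : ℝ)) := by
    unfold S P
    rw [Finset.sum_div]
    refine Finset.sum_congr rfl fun a _ => ?_
    rw [List.length_append, List.length_cons]
    rfl
  have h2 : (((x.length + y.length + 2).choose (x.length + 1) : ℕ) : ℝ) *
      ((x.length + 1).factorial * (y.length + 1).factorial) =
        (x.length + y.length + 2).factorial := by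
    have h3 := Nat.choose_mul_factorial_mul_factorial
      (show x.length + 1 ≤ x.length + y.length + 2 by omega)
    rw [show x.length + y.length + 2 - (x.length + 1) = y.length + 1 by omega] at h3
    rw [← h3]
    push_cast
    ring
  rw [h1, S_eq, P, P, ← h2, div_mul_div_comm, pow_succ, pow_add]
  have h4 : (((x.length + y.length + 2).choose (x.length + 1) : ℕ) : ℝ) ≠ 0 := by
    have := Nat.choose_pos (show x.length + 1 ≤ x.length + y.length + 2 by omega)
    positivity
  have h5 : ((x.length + 1).factorial : ℝ) ≠ 0 := by positivity
  have h6 : ((y.length + 1).factorial : ℝ) ≠ 0 := by positivity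
  rw [div_eq_div_iff (by positivity) (by positivity)]
  ring

end Pool.Agent.OD.H45
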